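import Pool.Agent.Helper72.AI.Stmts

/-!
MP_870acd_co, packet S_attain.
-/

set_option autoImplicit false

namespace Pool.Agent.Helper3.AI

open MeasureTheory AffInc

theorem cont_T (p : ℝ × ℝ) : Continuous fun X : Fin 3 → ℝ × ℝ => T X p := by
  unfold T
  fun_prop

theorem cont_det3 : Continuous fun X : Fin 3 → ℝ × ℝ => |det3 X| := by
  unfold det3
  fun_prop

theorem pf_S_attain : AffInc.S_attain := by
  intro F G hF hG
  set 𝒮 : Set (Fin 3 → ℝ × ℝ) := {X | T X '' F ⊆ G} with h𝒮
  -- closed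
  have hclosed : IsClosed 𝒮 := by
    have : 𝒮 = ⋂ p ∈ F, (fun X : Fin 3 → ℝ × ℝ => T X p) ⁻¹' G := by
      ext X
      rw [Set.mem_iInter₂]
      constructor
      · intro hX p hp
        exact hX ⟨p, hp, rfl⟩
      · rintro hX _ ⟨p, hp, rfl⟩
        exact hX p hp
    rw [this]
    exact isClosed_biInter fun p _ => hG.cpt.isClosed.preimage (cont_T p)
  -- three points of `F`
  obtain ⟨q, hq⟩ := hF.int
  obtain ⟨ε, hε, hball⟩ := Metric.isOpen_iff.1 isOpen_interior q hq
  have hballF : ∀ s t : ℝ, |s| < ε → |t| < ε → (q.1 + s, q.2 + t) ∈ F := by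
    intro s t hs ht
    apply interior_subset
    apply hball
    rw [Metric.mem_ball, Prod.dist_eq, Real.dist_eq, Real.dist_eq]
    simp only [add_sub_cancel_left]
    exact max_lt hs ht
  set P : Fin 3 → ℝ × ℝ := ![(q.1, q.2), (q.1 + ε / 2, q.2), (q.1, q.2 + ε / 2)] with hP
  have hε2 : |ε / 2| < ε := by rw [abs_of_pos (by positivity)]; linarith
  have hPF : ∀ i, P i ∈ F := by
    intro i
    fin_cases i
    · have := hballF 0 0 (by simpa using hε) (by simpa using hε)
      simpa [hP] using this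
    · have := hballF (ε / 2) 0 hε2 (by simpa using hε)
      simpa [hP] using this
    · have := hballF 0 (ε / 2) (by simpa using hε) hε2
      simpa [hP] using this
  have hPdet : det3 P ≠ 0 := by
    have : det3 P = ε / 2 * (ε / 2) := by
      simp [det3, hP]
    rw [this]
    positivity
  -- bounded
  set Φ : (Fin 3 → ℝ × ℝ) → (Fin 3 → ℝ × ℝ) := fun Z i => T Z (T (invT P) (S0 i)) with hΦ
  have hΦc : Continuous Φ := continuous_pi fun i => cont_T _
  have hTS0 : ∀ (X : Fin 3 → ℝ × ℝ) i, T X (S0 i) = X i := by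
    intro X i
    fin_cases i <;> (rw [T_def]; simp [S0])
  have hsub : 𝒮 ⊆ Φ '' (Set.univ.pi fun _ => G) := by
    intro X hX
    refine ⟨fun i => T X (P i), fun i _ => hX ⟨P i, hPF i, rfl⟩, ?_⟩
    funext i
    show T (fun i => T X (P i)) (T (invT P) (S0 i)) = X i
    rw [← T_comp, T_invT P hPdet, hTS0]
  have hcomp : IsCompact 𝒮 := by
    have h1 : IsCompact (Φ '' (Set.univ.pi fun _ => G)) :=
      (isCompact_univ_pi fun _ => hG.cpt).image hΦc
    exact h1.of_isClosed_subset hclosed hsub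
  -- a nondegenerate element
  obtain ⟨g, hg⟩ := hG.int
  obtain ⟨δ, hδ, hballG⟩ := Metric.isOpen_iff.1 isOpen_interior g hg
  obtain ⟨R, hR⟩ := hF.cpt.isBounded.subset_closedBall 0
  set R' : ℝ := max R 0 + 1 with hR'
  have hR'pos : 0 < R' := by rw [hR']; positivity
  have hR'le : ∀ p ∈ F, ‖p‖ < R' := by
    intro p hp
    have := hR hp
    rw [mem_closedBall_zero_iff] at this
    calc ‖p‖ ≤ max R 0 := this.trans (le_max_left _ _)
      _ < R' := by rw [hR']; linarith
  set c : ℝ := δ / R' with hc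
  have hc0 : 0 < c := by rw [hc]; positivity
  set X₀ : Fin 3 → ℝ × ℝ := fun i => g + c • S0 i with hX₀
  have hTX₀ : ∀ p, T X₀ p = g + c • p := by
    intro p
    rw [T_def]
    ext
    · simp [hX₀, S0]; ring
    · simp [hX₀, S0]; ring
  have hX₀det : det3 X₀ = c * c := by
    simp [det3, hX₀, S0]
  have hX₀mem : X₀ ∈ 𝒮 := by
    rintro _ ⟨p, hp, rfl⟩
    rw [hTX₀]
    apply interior_subset
    apply hballG
    rw [Metric.mem_ball, dist_eq_norm, add_sub_cancel_left, norm_smul, Real.norm_of_nonneg hc0.le,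
      hc, div_mul_eq_mul_div, div_lt_iff₀ hR'pos]
    exact mul_lt_mul_of_pos_left (hR'le p hp) hδ
  obtain ⟨X, hX, hmax⟩ := hcomp.exists_isMaxOn ⟨X₀, hX₀mem⟩ cont_det3.continuousOn
  refine ⟨X, ?_, hX, ?_⟩
  · intro h0
    have h1 : |det3 X₀| ≤ |det3 X| := hmax hX₀mem
    rw [h0, abs_zero, hX₀det, abs_of_pos (by positivity)] at h1
    have : 0 < c * c := by positivity
    linarith
  · intro Y hY
    rw [area_T, area_T]
    have h1 : |det3 Y| ≤ |det3 X| := hmax hY
    exact mul_le_mul_of_nonneg_right h1 hF.area_pos.le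

end Pool.Agent.Helper3.AI
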