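import Pool.Agent.Helper72.AI.Stmts

/-!
MP_870acd_co, packet S_integrate.
-/

set_option autoImplicit false

namespace Pool.Agent.Helper3.AI

open MeasureTheory AffInc

theorem pf_S_integrate : AffInc.S_integrate := by
  intro g M hg hper hM
  set h : ℝ → ℝ := fun θ => g θ * Real.sin θ with hh
  have hc : Continuous h := hg.mul Real.continuous_sin
  have hp : Function.Periodic h (2 * Real.pi) := by
    intro θ
    show g (θ + 2 * Real.pi) * Real.sin (θ + 2 * Real.pi) = g θ * Real.sin θ
    rw [hper, Real.sin_add_two_pi]
  have htri : ∀ θ, triSum g θ = h θ + h (θ + 2 * Real.pi / 3) + h (θ + 4 * Real.pi / 3) :=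
    fun θ => rfl
  have e : ∀ a : ℝ, ∫ θ in (0:ℝ)..(2 * Real.pi), h (θ + a) =
      ∫ θ in (0:ℝ)..(2 * Real.pi), h θ := by
    intro a
    rw [intervalIntegral.integral_comp_add_right, zero_add, add_comm (2 * Real.pi) a]
    have := hp.intervalIntegral_add_eq a 0
    rw [zero_add] at this
    exact this
  have hca : ∀ a : ℝ, Continuous fun θ => h (θ + a) := fun a =>
    hc.comp (continuous_id.add continuous_const)
  have ht : Continuous (triSum g) := by
    have : triSum g = fun θ => h θ + h (θ + 2 * Real.pi / 3) + h (θ + 4 * Real.pi / 3) :=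
      funext htri
    rw [this]
    exact (hc.add (hca _)).add (hca _)
  have hsum : ∫ θ in (0:ℝ)..(2 * Real.pi), triSum g θ =
      3 * ∫ θ in (0:ℝ)..(2 * Real.pi), g θ * Real.sin θ := by
    simp only [htri]
    rw [intervalIntegral.integral_add, intervalIntegral.integral_add, e, e]
    · ring
    · exact hc.intervalIntegrable _ _
    · exact (hca _).intervalIntegrable _ _
    · exact (hc.add (hca _)).intervalIntegrable _ _
    · exact (hca _).intervalIntegrable _ _
  have hpi : (0 : ℝ) < 2 * Real.pi := by positivity
  have hconst : ∫ _θ in (0:ℝ)..(2 * Real.pi), M = 2 * Real.pi * M := by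
    rw [intervalIntegral.integral_const, sub_zero, smul_eq_mul]
  have hle : ∫ θ in (0:ℝ)..(2 * Real.pi), triSum g θ ≤ 2 * Real.pi * M := by
    rw [← hconst]
    exact intervalIntegral.integral_mono_on hpi.le (ht.intervalIntegrable _ _)
      (continuous_const.intervalIntegrable _ _) fun x _ => hM x
  constructor
  · rw [← hsum]; exact hle
  · intro heq θ₀
    by_contra hne
    have hlt : triSum g θ₀ < M := lt_of_le_of_ne (hM θ₀) hne
    have hpt : Function.Periodic (fun θ => M - triSum g θ) (2 * Real.pi) := by
      intro θ
      show M - triSum g (θ + 2 * Real.pi) = M - triSum g θ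
      rw [htri, htri]
      have e1 : θ + 2 * Real.pi + 2 * Real.pi / 3 = θ + 2 * Real.pi / 3 + 2 * Real.pi := by ring
      have e2 : θ + 2 * Real.pi + 4 * Real.pi / 3 = θ + 4 * Real.pi / 3 + 2 * Real.pi := by ring
      rw [e1, e2, hp, hp, hp]
    have hpos : 0 < ∫ θ in θ₀..(θ₀ + 2 * Real.pi), (M - triSum g θ) := by
      apply intervalIntegral.integral_pos (by linarith)
      · exact (continuous_const.sub ht).continuousOn
      · intro x _
        have := hM x
        show 0 ≤ M - triSum g x
        linarith
      · exact ⟨θ₀, ⟨le_rfl, by linarith⟩, by linarith⟩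
    have hshift := hpt.intervalIntegral_add_eq θ₀ 0
    rw [zero_add] at hshift
    rw [hshift, intervalIntegral.integral_sub (continuous_const.intervalIntegrable _ _)
      (ht.intervalIntegrable _ _), hconst, hsum, heq] at hpos
    linarith

end Pool.Agent.Helper3.AI
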